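import Pool.Agent.helper79.NB.Graph
import Pool.Agent.helper2.Bis.Defs

/-!
# The field form of the near-balanced partition (helper79)

`near_strong` is `graph_near` of `helper79/NB/Graph.lean` with the conclusion on the field
`J * z u * ∑ v ∈ nb R u, z v` (instead of the number of good neighbours), for a relation on a
finite type.
-/

set_option autoImplicit false

namespace Pool.Agent.helper79.NO

open Finset Pool.Agent.helper2.Bis Pool.Agent.helper79.NB

/-- `graph_near` with the field inequality as conclusion -/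
theorem graph_near_fld {n r : ℕ} (R : Fin n → Fin n → Prop) [DecidableRel R]
    (hsymm : ∀ u v, R u v → R v u) (hirr : ∀ u, ¬ R u u) (w : Fin r → Fin n → ℝ)
    (hw : ∀ i v, |w i v| ≤ 1) (hr : 1 ≤ r) (a b d : ℕ) (ha : 1 ≤ a) (hb : 1 ≤ b) (han : a < n)
    (harn : a + r ≤ n + 1)
    (hmin : ∀ u v, R u v → (univ.filter (fun w => R u w)).card = d ∨
      (univ.filter (fun w => R v w)).card = d) (ε : ℝ) (hε1 : |ε| = 1) :
    ∃ z : Fin n → Bool,
      (∀ i, |∑ v, w i v * sg (z v)| ≤
        2 * r * d * n / (a * b) + (a - 1 + 2 * r)) ∧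
      ∀ u, -(2 * (a : ℝ) + b - 2) ≤ ε * (sg (z u) * fld R z u) := by
  classical
  set E : St n → ℝ := fun x => ε * (1 / 2) * qf R x with hE
  set s : Fin r → St n → ℝ := fun i x => ∑ v, w i v * sg (x v) with hs
  have hne : (univ : Finset (Fin r)).Nonempty := ⟨⟨0, hr⟩, Finset.mem_univ _⟩
  set p : St n → ℝ := fun x => univ.sup' hne (fun i => |s i x|) with hpdef
  have hsp : ∀ i x, |s i x| ≤ p x := fun i x =>
    Finset.le_sup' (fun i => |s i x|) (Finset.mem_univ i)
  have hps : ∀ x t, (∀ i, |s i x| ≤ t) → p x ≤ t := fun x t h =>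
    Finset.sup'_le hne _ fun i _ => h i
  have hp0 : ∀ x, 0 ≤ p x := fun x => (abs_nonneg _).trans (hsp ⟨0, hr⟩ x)
  have hodd : ∀ i x, s i (tauS x) = - s i x := by
    intro i x
    simp only [hs]
    rw [← Finset.sum_neg_distrib]
    refine Finset.sum_congr rfl fun v _ => ?_
    show w i v * sg (!(x v)) = _
    rw [sg_not]
    ring
  have hpe : ∀ x, p (tauS x) = p x := by
    intro x
    refine le_antisymm (hps _ _ fun i => ?_) (hps _ _ fun i => ?_)
    · rw [hodd, abs_neg]; exact hsp i x
    · have := hsp i (tauS x)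
      rw [hodd, abs_neg] at this
      exact this
  have hlip : ∀ i x u, |s i (NB.flip u x) - s i x| ≤ 2 := by
    intro i x u
    have e : s i (NB.flip u x) - s i x = w i u * (-2 * sg (x u)) := by
      simp only [hs]
      rw [← Finset.sum_sub_distrib]
      have : ∀ v, w i v * sg (NB.flip u x v) - w i v * sg (x v) =
          if v = u then w i v * (-2 * sg (x u)) else 0 := by
        intro v
        rw [sg_flip]
        split_ifs <;> ring
      simp only [this]
      rw [Finset.sum_ite_eq' univ u, if_pos (Finset.mem_univ u)]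
    rw [e, abs_mul, abs_mul, sg_abs]
    have := hw i u
    norm_num
    linarith
  have hplip : ∀ x u, p (NB.flip u x) ≤ p x + 2 := by
    intro x u
    refine hps _ _ fun i => ?_
    have h1 := hlip i x u
    have h2 := hsp i x
    have h3 : |s i (NB.flip u x)| ≤ |s i (NB.flip u x) - s i x| + |s i x| := by
      have := abs_add_le (s i (NB.flip u x) - s i x) (s i x)
      rwa [sub_add_cancel] at this
    linarith
  have hEe : ∀ x, E (tauS x) = E x := fun x => by simp only [hE]; rw [qf_tau]
  have hEabs : ∀ x, |E x| ≤ d * n := by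
    intro x
    simp only [hE]
    rw [abs_mul, abs_mul, hε1, one_mul]
    have h1 := qf_abs R x
    have h2 := sum_rr_le R hsymm d hmin
    rw [abs_of_pos (by norm_num : (0 : ℝ) < 1 / 2)]
    linarith
  have hB : ∀ x y, E x - E y ≤ 2 * d * n := by
    intro x y
    have h1 := (abs_le.1 (hEabs x)).2
    have h2 := (abs_le.1 (hEabs y)).1
    linarith
  have hL : (0 : ℝ) < (b : ℝ) := by exact_mod_cast hb
  obtain ⟨z, l, hl0, hlb, hpz, hz⟩ := minimax E p s hEe hpe hp0 hps hodd hlip a ha han harn
    (b : ℝ) hL (2 * d * n) hB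
  refine ⟨z, fun i => ?_, fun u => ?_⟩
  · have h1 := hsp i z
    have h2 : |s i z| ≤ r * (2 * d * n) / (a * b) + (a - 1 + 2 * r) := h1.trans hpz
    have h3 : (r : ℝ) * (2 * d * n) / (a * b) = 2 * r * d * n / (a * b) := by ring
    rw [h3] at h2
    exact h2
  · obtain ⟨y, hy1, hy2, hy3, hy4⟩ := hz u
    have e1 : E (NB.flip u y) = E y - 2 * (ε * (sg (y u) * fld R y u)) := by
      simp only [hE]
      rw [qf_flip R hsymm hirr]
      ring
    have h1 : E (NB.flip u y) - E y ≤ l * (p (NB.flip u y) - p y) := by linarith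
    have h2 : l * (p (NB.flip u y) - p y) ≤ l * 2 :=
      mul_le_mul_of_nonneg_left (by linarith [hplip y u]) hl0
    have h3 : - (b : ℝ) ≤ ε * (sg (y u) * fld R y u) := by linarith
    have h4 := fld_close R u y z
    have h5 : (NB.dist y z : ℝ) ≤ a - 1 := by
      have : ((NB.dist y z : ℕ) : ℝ) ≤ ((a - 1 : ℕ) : ℝ) := by exact_mod_cast hy1
      rwa [Nat.cast_sub ha, Nat.cast_one] at this
    have h6 : |ε * (sg (y u) * fld R y u) - ε * (sg (z u) * fld R z u)| ≤ 2 * (a - 1) := by
      rw [hy2, ← mul_sub, ← mul_sub, abs_mul, abs_mul, hε1, sg_abs, one_mul, one_mul]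
      linarith
    have h7 := (abs_le.1 h6).2
    linarith

/-- strong near-balanced partition: all fields are at least `-(2 a + b - 2)` -/
theorem near_strong {V : Type} [Fintype V] [DecidableEq V] (R : V → V → Prop)
    (hsymm : ∀ u v, R u v → R v u) (hirr : ∀ u, ¬ R u u)
    (d a b r : ℕ) (ha : 1 ≤ a) (hb : 1 ≤ b) (hr : 1 ≤ r) (han : a < Fintype.card V)
    (har : a + r ≤ Fintype.card V + 1)
    (w : Fin r → V → ℝ) (hw : ∀ i v, |w i v| ≤ 1) (hdeg : ∀ v, d ≤ dg R v)
    (hmin : ∀ u v, R u v → dg R u = d ∨ dg R v = d)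
    (J : ℝ) (hJ : J = 1 ∨ J = -1) :
    ∃ z : V → ℝ, (∀ v, z v = 1 ∨ z v = -1) ∧
      (∀ i, |∑ v, w i v * z v| ≤
        2 * r * d * (Fintype.card V : ℝ) / (a * b) + (a - 1 + 2 * r)) ∧
      ∀ u, -(2 * (a : ℝ) + b - 2) ≤ J * z u * ∑ v ∈ nb R u, z v := by
  classical
  have hJ1 : |J| = 1 := by rcases hJ with h | h <;> rw [h] <;> norm_num
  set e : V ≃ Fin (Fintype.card V) := Fintype.equivFin V with he
  have hcard : ∀ i : Fin (Fintype.card V),
      (univ.filter (fun j => R (e.symm i) (e.symm j))).card = dg R (e.symm i) := by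
    intro i
    unfold dg
    refine Finset.card_bij (fun j _ => e.symm j) ?_ ?_ ?_
    · intro j hj
      exact mem_nb.2 (Finset.mem_filter.1 hj).2
    · intro j _ j' _ h
      exact e.symm.injective h
    · intro x hx
      refine ⟨e x, Finset.mem_filter.2 ⟨Finset.mem_univ _, ?_⟩, e.symm_apply_apply x⟩
      rw [e.symm_apply_apply]
      exact mem_nb.1 hx
  obtain ⟨z, hz1, hz2⟩ := graph_near_fld (n := Fintype.card V) (r := r)
    (fun i j => R (e.symm i) (e.symm j)) (fun i j h => hsymm _ _ h)
    (fun i h => hirr _ h) (fun i j => w i (e.symm j)) (fun i j => hw i _) hr a b d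
    ha hb han har (fun i j h => by rw [hcard i, hcard j]; exact hmin _ _ h) J hJ1
  refine ⟨fun v => sg (z (e v)), ?_, ?_, ?_⟩
  · intro v
    show sg (z (e v)) = 1 ∨ sg (z (e v)) = -1
    generalize z (e v) = c
    cases c
    · exact Or.inr (if_neg (by decide))
    · exact Or.inl (if_pos rfl)
  · intro i
    have h1 : ∑ v, w i v * sg (z (e v)) = ∑ j, w i (e.symm j) * sg (z j) := by
      rw [← Equiv.sum_comp e (fun j => w i (e.symm j) * sg (z j))]
      refine Finset.sum_congr rfl fun v _ => ?_
      rw [e.symm_apply_apply]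
    rw [h1]
    exact hz1 i
  · intro u
    have h1 := hz2 (e u)
    have h2 : fld (fun i j => R (e.symm i) (e.symm j)) z (e u) = ∑ v ∈ nb R u, sg (z (e v)) := by
      unfold fld
      rw [← Equiv.sum_comp e (fun j => rr (fun i j => R (e.symm i) (e.symm j)) (e u) j * sg (z j))]
      unfold nb rr
      rw [Finset.sum_filter]
      refine Finset.sum_congr rfl fun v _ => ?_
      show (if R (e.symm (e u)) (e.symm (e v)) then (1 : ℝ) else 0) * sg (z (e v)) = _
      rw [e.symm_apply_apply, e.symm_apply_apply]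
      by_cases h : R u v
      · rw [if_pos h, if_pos h, one_mul]
      · rw [if_neg h, if_neg h, zero_mul]
    rw [h2, ← mul_assoc] at h1
    exact h1

end Pool.Agent.helper79.NO
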